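import Pool.Agent.Helper59.MB.Goals2

/-!
Packet MB-KEY: the key lemma.
-/

set_option autoImplicit false

open MeasureTheory Filter Topology Finset
open Pool.Agent.Helper59.MB

namespace Pool.Agent.Helper63.MB

noncomputable section

lemma abs_cast (u : ℕ → ℤ) (hu : ∀ n, |u n| ≤ 1) (n : ℕ) : |(u n : ℝ)| ≤ 1 := by
  have h := hu n
  have h2 : ((|u n| : ℤ) : ℝ) ≤ 1 := by exact_mod_cast h
  rwa [Int.cast_abs] at h2

lemma sum_Du (u : ℕ → ℤ) (N r : ℕ) (e : (ℕ → ℤ) → ℝ) (he : Pred u N r e) :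
    ∑ n ∈ Icc 1 N, Dv u e n * (u n : ℝ) = ∑ n ∈ Icc 1 N, ((u n : ℝ) - e (past u n)) ^ 2 := by
  have h := he.orth e he.loc
  have h2 : ∑ n ∈ Icc 1 N, Dv u e n * (u n : ℝ) - ∑ n ∈ Icc 1 N, ((u n : ℝ) - e (past u n)) ^ 2 =
      ∑ n ∈ Icc 1 N, ((u n : ℝ) - e (past u n)) * e (past u n) := by
    rw [← Finset.sum_sub_distrib]
    refine Finset.sum_congr rfl fun n _ => ?_
    rw [Dv]
    ring
  rw [h] at h2
  exact sub_eq_zero.mp h2

lemma np_lower (u : ℕ → ℤ) (δ : ℝ) (R N r : ℕ) (hr : r ≤ R) (e : (ℕ → ℤ) → ℝ) (he : Loc r e)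
    (h : ∀ e : (Fin R → ℤ) → ℝ, δ * N < ∑ n ∈ Icc 1 N, ((u n : ℝ) - e fun i => past u n i) ^ 2) :
    δ * N ≤ ∑ n ∈ Icc 1 N, ((u n : ℝ) - e (past u n)) ^ 2 := by
  have h1 := h fun p => e fun i => if hi : i < R then p ⟨i, hi⟩ else 0
  refine h1.le.trans (le_of_eq ?_)
  refine Finset.sum_congr rfl fun n _ => ?_
  have h2 : e (fun i => if hi : i < R then past u n ((⟨i, hi⟩ : Fin R) : ℕ) else 0) =
      e (past u n) := by
    apply he
    intro i hi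
    rw [dif_pos (lt_of_lt_of_le hi hr)]
  rw [h2]

theorem t_KEY (hKE1 : S_KE1) (hKE2 : S_KE2) (hKE4 : S_KE4) (hKE5 : S_KE5) : S_KEY := by
  intro m _ g hgm hgb hg0 u hu δ hδ hNP l C κ hCm hC hCl ε hε N₀
  have hκ : 0 ≤ κ := by
    have h := hC (fun _ _ => true)
    exact h.1.trans h.2
  -- the number of steps
  set t : ℝ := κ * (l * 2 ^ l) with ht
  have ht0 : 0 ≤ t := by positivity
  obtain ⟨M, hM⟩ := exists_nat_ge ((2 * t / ε) ^ 2 + 1)
  have hM0 : (0 : ℝ) < M := by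
    have : (0 : ℝ) ≤ (2 * t / ε) ^ 2 := by positivity
    linarith
  have hMn : 0 < M := by exact_mod_cast hM0
  set η : ℝ := 1 / Real.sqrt M with hη
  have hsM : 0 < Real.sqrt M := Real.sqrt_pos.mpr hM0
  have hη0 : 0 ≤ η := by positivity
  have hη2 : η ^ 2 = 1 / M := by
    rw [hη, div_pow, one_pow, Real.sq_sqrt hM0.le]
  have htη : t * η ≤ ε / 2 := by
    have h1 : 2 * t / ε ≤ Real.sqrt M := by
      apply Real.le_sqrt_of_sq_le
      linarith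
    rw [div_le_iff₀ hε] at h1
    rw [hη, mul_one_div, div_le_iff₀ hsM]
    linarith
  obtain ⟨N₁, hN₁⟩ := exists_nat_ge (2 * (t * l) / ε)
  obtain ⟨N, hN, hNe⟩ := hNP (M * l) (max N₀ N₁)
  have hN0 : N₀ ≤ N := (le_max_left _ _).trans hN
  have hN1 : (N₁ : ℝ) ≤ N := by exact_mod_cast (le_max_right N₀ N₁).trans hN
  have htl : t * l ≤ ε / 2 * N := by
    have h1 := hN₁.trans hN1
    rw [div_le_iff₀ hε] at h1
    linarith
  -- the predictors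
  choose e he using hKE1 u hu N
  obtain ⟨j, hj, hsum⟩ := hKE2 u hu N l M e hMn he
  have h4 := hKE4 u hu N (j * l) l (e (j * l)) (e (j * l + l)) η hη0 (he _) (he _) (by
    rw [hη2]
    calc _ ≤ (N : ℝ) / M := hsum
      _ = 1 / M * N := by ring)
  have hD : ∀ n, |Dv u (e (j * l)) n| ≤ 2 := by
    intro n
    have h1 := abs_cast u hu n
    have h2 := (he (j * l)).le (past u n)
    rw [Dv]
    calc |(u n : ℝ) - e (j * l) (past u n)| ≤ |(u n : ℝ)| + |e (j * l) (past u n)| := abs_sub _ _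
      _ ≤ 2 := by linarith
  obtain ⟨a, ha⟩ := hKE5 m g hgm hgb hg0 N l (Dv u (e (j * l))) (fun n => (u n : ℝ)) C κ
    (l * 2 ^ l * (η * N + l)) hD (abs_cast u hu) hCm hC hCl h4
  refine ⟨N, hN0, a, ?_⟩
  refine le_trans ?_ ha
  have h5 : δ * N ≤ ∑ n ∈ Icc 1 N, Dv u (e (j * l)) n * (u n : ℝ) := by
    rw [sum_Du u N _ _ (he _)]
    exact np_lower u δ (M * l) N (j * l) (Nat.mul_le_mul_right l hj.le) _ (he _).loc hNe
  have h6 : 0 ≤ ∫ a, g a ^ 2 ∂m := integral_nonneg fun a => sq_nonneg _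
  have h7 : (∫ a, g a ^ 2 ∂m) / 2 * (δ * N) ≤
      (∫ a, g a ^ 2 ∂m) / 2 * ∑ n ∈ Icc 1 N, Dv u (e (j * l)) n * (u n : ℝ) :=
    mul_le_mul_of_nonneg_left h5 (by linarith)
  have h8 : κ * (l * 2 ^ l * (η * N + l)) = t * η * N + t * l := by
    rw [ht]; ring
  have h9 : t * η * N ≤ ε / 2 * N := mul_le_mul_of_nonneg_right htη (Nat.cast_nonneg N)
  have h10 : κ * (l * 2 ^ l * (η * N + l)) ≤ N * ε := by
    rw [h8]
    linarith
  have h11 : (N : ℝ) * (δ / 2 * ∫ a, g a ^ 2 ∂m - ∫ w, C w ∂(Q m) - ε) =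
      (∫ a, g a ^ 2 ∂m) / 2 * (δ * N) - N * ∫ w, C w ∂(Q m) - N * ε := by ring
  linarith

end

end Pool.Agent.Helper63.MB
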