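import Pool.Agent.Helper59.MB.Goals3

/-!
Packet MB-SQF: at least half of the integers up to `N` are squarefree.
-/

set_option autoImplicit false

open Finset
open Pool.Agent.Helper59.MB

namespace Pool.Agent.Helper63.MB

lemma mu_sq (n : ℕ) : ((ArithmeticFunction.moebius n : ℤ) : ℝ) ^ 2 =
    if Squarefree n then 1 else 0 := by
  by_cases h : Squarefree n
  · rw [if_pos h]
    have h1 := ArithmeticFunction.moebius_sq_eq_one_of_squarefree h
    exact_mod_cast h1
  · rw [if_neg h, ArithmeticFunction.moebius_eq_zero_of_not_squarefree h]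
    norm_num

lemma card_mult (N d : ℕ) : ((Icc 1 N).filter fun n => d ∣ n).card = N / d := by
  have h : Icc 1 N = Ioc 0 N := rfl
  rw [h]
  exact Nat.Ioc_filter_dvd_card_eq_div N d

lemma sum_odd (N J : ℕ) : ∑ j ∈ range J, (N : ℝ) / (2 * (j + 1) + 1) ^ 2 ≤
    (N : ℝ) / 4 * (1 - 1 / (J + 1)) := by
  induction J with
  | zero => simp
  | succ J ih =>
    rw [sum_range_succ]
    have hJ : (0 : ℝ) ≤ J := Nat.cast_nonneg J
    have hN : (0 : ℝ) ≤ N := Nat.cast_nonneg N
    have h1 : (N : ℝ) / (2 * (J + 1) + 1) ^ 2 ≤ (N : ℝ) / 4 * (1 / (J + 1) - 1 / (J + 1 + 1)) := by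
      have h2 : (1 : ℝ) / (J + 1) - 1 / (J + 1 + 1) = 1 / ((J + 1) * (J + 1 + 1)) := by
        field_simp
        ring
      rw [h2, div_mul_div_comm, mul_one]
      apply div_le_div_of_nonneg_left hN (by positivity)
      nlinarith
    push_cast
    have h3 : (N : ℝ) / 4 * (1 - 1 / (J + 1 + 1)) = (N : ℝ) / 4 * (1 - 1 / (J + 1)) +
        (N : ℝ) / 4 * (1 / (J + 1) - 1 / (J + 1 + 1)) := by ring
    rw [h3]
    exact add_le_add ih h1

theorem t_SQF : S_SQF := by
  intro N
  classical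
  rw [sum_congr rfl fun n _ => mu_sq n, sum_boole]
  have h1 := card_filter_add_card_filter_not (s := Icc 1 N) (fun n => Squarefree n)
  rw [Nat.card_Icc, Nat.add_sub_cancel] at h1
  have h2 : (Icc 1 N).filter (fun n => ¬ Squarefree n) ⊆ ((Icc 1 N).filter fun n => 4 ∣ n) ∪
      (range N).biUnion fun j => (Icc 1 N).filter fun n => (2 * (j + 1) + 1) ^ 2 ∣ n := by
    intro n hn
    rw [mem_filter, mem_Icc] at hn
    obtain ⟨⟨hn1, hn2⟩, hn3⟩ := hn
    rw [Nat.squarefree_iff_prime_squarefree] at hn3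
    push Not at hn3
    obtain ⟨p, hp, hpn⟩ := hn3
    rw [mem_union]
    rcases hp.eq_two_or_odd' with h2 | ⟨j, hj⟩
    · left
      rw [mem_filter, mem_Icc]
      rw [h2] at hpn
      exact ⟨⟨hn1, hn2⟩, hpn⟩
    · right
      rw [mem_biUnion]
      have hp2 := hp.two_le
      have hj1 : 1 ≤ j := by omega
      have hpN : p * p ≤ n := Nat.le_of_dvd (by omega) hpn
      refine ⟨j - 1, ?_, ?_⟩
      · rw [mem_range]
        have : p ≤ p * p := Nat.le_mul_self p
        omega
      · rw [mem_filter, mem_Icc]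
        refine ⟨⟨hn1, hn2⟩, ?_⟩
        rw [Nat.sub_add_cancel hj1, ← hj, sq]
        exact hpn
  have h3 : (((Icc 1 N).filter (fun n => ¬ Squarefree n)).card : ℝ) ≤ (N : ℝ) / 2 := by
    have h4 : ((Icc 1 N).filter (fun n => ¬ Squarefree n)).card ≤
        N / 4 + ∑ j ∈ range N, N / (2 * (j + 1) + 1) ^ 2 := by
      refine (card_le_card h2).trans ((card_union_le _ _).trans ?_)
      refine add_le_add (card_mult N 4).le (card_biUnion_le.trans ?_)
      exact sum_le_sum fun j _ => (card_mult N _).le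
    have h5 : (((Icc 1 N).filter (fun n => ¬ Squarefree n)).card : ℝ) ≤
        (N : ℝ) / 4 + ∑ j ∈ range N, (N : ℝ) / (2 * (j + 1) + 1) ^ 2 := by
      have h6 : (((Icc 1 N).filter (fun n => ¬ Squarefree n)).card : ℝ) ≤
          ((N / 4 + ∑ j ∈ range N, N / (2 * (j + 1) + 1) ^ 2 : ℕ) : ℝ) := by exact_mod_cast h4
      refine h6.trans ?_
      push_cast
      refine add_le_add ?_ (sum_le_sum fun j _ => ?_)
      · exact (Nat.cast_div_le (m := N) (n := 4)).trans (by norm_num)
      · refine (Nat.cast_div_le (m := N) (n := (2 * (j + 1) + 1) ^ 2)).trans ?_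
        push_cast
        exact le_rfl
    have h7 := sum_odd N N
    have h8 : (N : ℝ) / 4 * (1 - 1 / (N + 1)) ≤ N / 4 := by
      have hN : (0 : ℝ) ≤ N := Nat.cast_nonneg N
      have h9 : (0 : ℝ) ≤ 1 / (N + 1) := by positivity
      nlinarith
    linarith
  have h10 : (((Icc 1 N).filter (fun n => Squarefree n)).card : ℝ) +
      (((Icc 1 N).filter (fun n => ¬ Squarefree n)).card : ℝ) = N := by exact_mod_cast h1
  linarith

end Pool.Agent.Helper63.MB
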