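import Pool.Agent.Helper59.MB.Goals1

/-!
Packet MB-PSA: the approximations `psi k`.
-/

set_option autoImplicit false
set_option linter.unusedSectionVars false

open MeasureTheory Filter Topology Finset
open Pool.Agent.Helper59.MB

namespace Pool.Agent.Helper63.MB

noncomputable section

variable (s : ℕ → ℕ) (V : ℕ → Set (ℕ → ℝ)) (m : Measure A) [IsProbabilityMeasure m]

lemma psi_a (hLOP : S_LOP) (hs : StrictMono s) (k : ℕ) (w : ℤ → A) (t : ℤ_[2]) (n : ℤ) (j : ℕ)
    (hj : k ≤ j) : psi s V m k w t n j = w n j := by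
  have h := (hLOP s V m hs).2.2 k
    (fromZ (n - (ph (s k) (t + (n : ℤ_[2])) : ℤ)) w) (ph (s k) (t + (n : ℤ_[2]))) j hj
  rw [psi, h, fromZ]
  congr 2
  ring

lemma psi_b (k : ℕ) (x : Bas) (n : ℤ) :
    psi s V m k (TB x).1 (TB x).2 n = psi s V m k x.1 x.2 (n + 1) := by
  have h1 : (TB x).2 + (n : ℤ_[2]) = x.2 + ((n + 1 : ℤ) : ℤ_[2]) := by
    simp only [TB, Homeomorph.homeomorph_mk_coe, Equiv.coe_fn_mk]
    push_cast; ring
  have h2 : ∀ r : ℤ, fromZ (n - r) (TB x).1 = fromZ (n + 1 - r) x.1 := by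
    intro r
    funext i
    exact congrArg x.1 (by ring)
  rw [psi, psi, h1, h2]

lemma meas_ph (hPHS : S_PHS) (k : ℕ) (n : ℤ) :
    Measurable fun x : Bas => ph k (x.2 + (n : ℤ_[2])) := by
  have h1 : Continuous fun t : ℤ_[2] => ph k (t + (n : ℤ_[2])) :=
    (hPHS.2.2.2.1 k).comp (continuous_id.add continuous_const)
  exact h1.measurable.comp measurable_snd

lemma meas_fromZ (a : ℤ) : Measurable fun x : Bas => fromZ a x.1 := by
  rw [measurable_pi_iff]
  intro i
  exact (measurable_pi_apply (a + i)).comp measurable_fst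

lemma meas_sel {Y : Type} [MeasurableSpace Y] (g : Bas → ℕ) (hg : Measurable g)
    (F : ℕ → Bas → Y) (hF : ∀ r, Measurable (F r)) : Measurable fun x => F (g x) x := by
  have h : Measurable fun p : ℕ × Bas => F p.1 p.2 :=
    measurable_from_prod_countable_right fun r => hF r
  exact h.comp (hg.prodMk measurable_id)

lemma psi_c (hPHS : S_PHS) (hMEA : S_MEA) (hV : ∀ k, (V k).Countable) (k : ℕ) (n : ℤ) :
    Measurable fun x : Bas => psi s V m k x.1 x.2 n := by
  have hPhi := (hMEA s V m hV).2.2.2 k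
  exact meas_sel (fun x : Bas => ph (s k) (x.2 + (n : ℤ_[2]))) (meas_ph hPHS (s k) n)
    (fun r x => Phi s V m k (fromZ (n - (r : ℤ)) x.1) r)
    (fun r => (measurable_pi_apply r).comp (hPhi.comp (meas_fromZ (n - (r : ℤ)))))

lemma good_of_hgood (k : ℕ) (w : Wd) (h : HGood s V m k w) : Good s V m k w := by
  intro l hl i₁ i₂ h12 h2 v hv
  refine (h l hl i₁ i₂ h12 h2 v hv).trans ?_
  have hP : (0 : ℝ) ≤ P s (k + 1) := Nat.cast_nonneg _
  refine mul_le_mul_of_nonneg_right ?_ hP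
  have hk : (0 : ℝ) < k + 1 := by positivity
  exact one_div_le_one_div_of_le hk (by linarith)

lemma psi_eq (hPHS : S_PHS) (hs : StrictMono s) (k : ℕ) (x : Bas) (n : ℤ)
    (h : HGood s V m k (cat s k (Phi s V m k)
      (fromZ (n - (ph (s (k + 1)) (x.2 + (n : ℤ_[2])) : ℤ)) x.1))) :
    psi s V m (k + 1) x.1 x.2 n = psi s V m k x.1 x.2 n := by
  have hg := good_of_hgood s V m k _ h
  have hmod : ph (s (k + 1)) (x.2 + (n : ℤ_[2])) % P s k = ph (s k) (x.2 + (n : ℤ_[2])) :=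
    hPHS.2.2.1 (s (k + 1)) (s k) _ (hs.monotone (Nat.le_succ k))
  rw [psi, psi]
  generalize ph (s (k + 1)) (x.2 + (n : ℤ_[2])) = ρ' at *
  generalize ph (s k) (x.2 + (n : ℤ_[2])) = ρ at *
  have h1 : Phi s V m (k + 1) (fromZ (n - (ρ' : ℤ)) x.1) =
      cat s k (Phi s V m k) (fromZ (n - (ρ' : ℤ)) x.1) := by
    show nxt s V m k (Phi s V m k) (fromZ (n - (ρ' : ℤ)) x.1) = _
    rw [nxt]
    exact if_pos hg
  rw [h1, cat, hmod]
  have h2 : from' (P s k * (ρ' / P s k)) (fromZ (n - (ρ' : ℤ)) x.1) =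
      fromZ (n - (ρ : ℤ)) x.1 := by
    funext j
    refine congrArg x.1 ?_
    have h3 := Nat.div_add_mod ρ' (P s k)
    rw [hmod] at h3
    have h4 : (ρ' : ℤ) = ((P s k * (ρ' / P s k) : ℕ) : ℤ) + ρ := by exact_mod_cast h3.symm
    rw [h4]
    push_cast
    ring
  rw [h2]

lemma meas_B (hMEA : S_MEA) (hV : ∀ k, (V k).Countable) (k : ℕ) :
    MeasurableSet {w : Wd | ¬ HGood s V m k (cat s k (Phi s V m k) w)} := by
  have h := hMEA s V m hV
  have h1 : Measurable (cat s k (Phi s V m k)) := h.2.2.1 k _ (h.2.2.2 k)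
  have h2 : MeasurableSet {w : Wd | HGood s V m k w} := h.2.1 k _ _
  exact (h1 h2).compl

lemma law (hBLK : S_BLK) (a : ℤ) (B : Set Wd) (hB : MeasurableSet B) :
    (Measure.infinitePi fun _ : ℤ => m) {w : ℤ → A | fromZ a w ∈ B} = Q m B := by
  have h := hBLK A m ℕ ℤ (fun i => a + i) (fun i j hij => by
    have : (a + (i : ℤ)) = a + j := hij
    omega)
  have hm : Measurable fun (w : ℤ → A) (i : ℕ) => w (a + i) := by
    rw [measurable_pi_iff]
    intro i
    exact measurable_pi_apply _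
  have h2 := Measure.map_apply hm hB (μ := Measure.infinitePi fun _ : ℤ => m)
  rw [h] at h2
  exact h2.symm

lemma psi_d (hPHS : S_PHS) (hMEA : S_MEA) (hBLK : S_BLK) (hHAR : S_HAR)
    (hV : ∀ k, (V k).Countable) (hs : StrictMono s) (k : ℕ) (hA : Adm s V m k) (n : ℤ) :
    (BM m).real {x | psi s V m (k + 1) x.1 x.2 n ≠ psi s V m k x.1 x.2 n} ≤
      (1 / 2) ^ (k + 2) := by
  have : IsProbabilityMeasure haar2 := hHAR.1
  have : IsProbabilityMeasure (BM m) := (hHAR.2.2.2 m).1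
  have : IsProbabilityMeasure (Q m) := by unfold Q; infer_instance
  have hBm := meas_B s V m hMEA hV k
  set B : Set Wd := {w : Wd | ¬ HGood s V m k (cat s k (Phi s V m k) w)} with hB
  set D : Set Bas := {x : Bas | fromZ (n - (ph (s (k + 1)) (x.2 + (n : ℤ_[2])) : ℤ)) x.1 ∈ B}
    with hD
  have hDm : MeasurableSet D := by
    have h := meas_sel (fun x : Bas => ph (s (k + 1)) (x.2 + (n : ℤ_[2])))
      (meas_ph hPHS (s (k + 1)) n) (fun r x => fromZ (n - (r : ℤ)) x.1)
      (fun r => meas_fromZ (n - (r : ℤ)))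
    exact h hBm
  have hsub : {x : Bas | psi s V m (k + 1) x.1 x.2 n ≠ psi s V m k x.1 x.2 n} ⊆ D := by
    intro x hx hcon
    exact hx (psi_eq s V m hPHS hs k x n hcon)
  have hDv : BM m D = Q m B := by
    rw [BM, Measure.prod_apply_symm hDm]
    have : ∀ t : ℤ_[2], (Measure.infinitePi fun _ : ℤ => m) ((fun w => (w, t)) ⁻¹' D) =
        Q m B := fun t =>
      law m hBLK (n - (ph (s (k + 1)) (t + (n : ℤ_[2])) : ℤ)) B hBm
    simp only [this, lintegral_const, measure_univ, mul_one]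
  calc (BM m).real {x | psi s V m (k + 1) x.1 x.2 n ≠ psi s V m k x.1 x.2 n}
      ≤ (BM m).real D := measureReal_mono hsub
    _ = (Q m).real B := by rw [Measure.real, Measure.real, hDv]
    _ ≤ (1 / 2) ^ (k + 2) / P s (k + 1) := hA.1
    _ ≤ (1 / 2) ^ (k + 2) := by
        refine div_le_self (by positivity) ?_
        have : 1 ≤ P s (k + 1) := Nat.one_le_two_pow
        exact_mod_cast this

theorem t_PSA (hLOP : S_LOP) (hPHS : S_PHS) (hMEA : S_MEA) (hBLK : S_BLK) (hHAR : S_HAR) :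
    S_PSA := by
  intro s V m _ h
  have hs : StrictMono s := (h 0).mono
  have hV : ∀ k, (V k).Countable := fun k => ((h 0).fin k).countable
  exact ⟨fun k w t n j hj => psi_a s V m hLOP hs k w t n j hj,
    fun k x n => psi_b s V m k x n,
    fun k n => psi_c s V m hPHS hMEA hV k n,
    fun k n => psi_d s V m hPHS hMEA hBLK hHAR hV hs k ((h (k + 1)).adm k (Nat.lt_succ_self k)) n⟩

end

end Pool.Agent.Helper63.MB
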